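import Mathlib
import Pool.Agent.TRM.C02
import Pool.Agent.TRM.C44

/-!
# MP_287c87_an: the trace inequality for all complex elliptic operators

Every complex elliptic first-order homogeneous operator with constant coefficients on `ℝ^d`,
`d ≥ 2`, satisfies the trace inequality for all measures with the `(d-1)`-growth condition.
-/

open Matrix MeasureTheory

namespace Pool.Agent.Results.MP_287c87_an.FullTrace

/-- The complex symbol `A(ξ) = ∑ j, ξ_j A_j`. -/
noncomputable def symbol {d N K : ℕ} (A : Fin d → Matrix (Fin K) (Fin N) ℝ) (ξ : Fin d → ℂ) :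
    Matrix (Fin K) (Fin N) ℂ :=
  ∑ j, ξ j • (A j).map (algebraMap ℝ ℂ)

/-- `A(ξ)` is injective on `ℂ^N` for every nonzero `ξ ∈ ℂ^d`. -/
def IsCElliptic {d N K : ℕ} (A : Fin d → Matrix (Fin K) (Fin N) ℝ) : Prop :=
  ∀ ξ : Fin d → ℂ, ξ ≠ 0 → ∀ v : Fin N → ℂ, symbol A ξ *ᵥ v = 0 → v = 0

/-- The operator `A(D) u = ∑ j, A_j ∂_j u`. -/
noncomputable def opD {d N K : ℕ} (A : Fin d → Matrix (Fin K) (Fin N) ℝ)
    (u : EuclideanSpace ℝ (Fin d) → EuclideanSpace ℝ (Fin N)) (x : EuclideanSpace ℝ (Fin d)) :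
    EuclideanSpace ℝ (Fin K) :=
  ∑ j, Matrix.toEuclideanLin (A j) (fderiv ℝ u x (EuclideanSpace.single j 1))

/-- The growth condition `μ (B(x, r)) ≤ C' r^(d-1)` for all balls. -/
def HasGrowth {d : ℕ} (C' : ℝ) (μ : Measure (EuclideanSpace ℝ (Fin d))) : Prop :=
  ∀ x : EuclideanSpace ℝ (Fin d), ∀ r : ℝ, 0 < r →
    μ (Metric.ball x r) ≤ ENNReal.ofReal (C' * r ^ (d - 1))

/-- For every `d ≥ 2`, every first-order operator `A(D) = ∑ j, A_j ∂_j` on `ℝ^d` (real `K × N`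
matrices) whose complex symbol is injective for all nonzero `ξ ∈ ℂ^d` and every `C' > 0` there is a
constant `C` with `∫ |u| dμ ≤ C ‖A(D) u‖_{L¹}` for all smooth compactly supported `u` and all
measures `μ`, finite on compact sets, with `μ (B(x, r)) ≤ C' r^(d-1)`. -/
theorem result :
    ∀ (d N K : ℕ) (A : Fin d → Matrix (Fin K) (Fin N) ℝ), 2 ≤ d → IsCElliptic A →
      ∀ C' : ℝ, 0 < C' → ∃ C : ℝ, 0 < C ∧
        ∀ μ : Measure (EuclideanSpace ℝ (Fin d)), IsFiniteMeasureOnCompacts μ →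
          HasGrowth C' μ →
          ∀ u : EuclideanSpace ℝ (Fin d) → EuclideanSpace ℝ (Fin N),
            ContDiff ℝ (⊤ : ℕ∞) u → HasCompactSupport u →
            ∫⁻ x, ‖u x‖ₑ ∂μ ≤ ENNReal.ofReal C * ∫⁻ x, ‖opD A u x‖ₑ :=
  fun d N K A hd hA C' hC' =>
    TG.frozen_of (TG.Chain.CF TG.Chain.CO TG.Chain.Main) d N K hd A hA C' hC'

end Pool.Agent.Results.MP_287c87_an.FullTrace
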